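import Pool.Agent.helper7.CSG.SpecD
import Pool.Agent.helper2.CSG.SPA

/-!
# Project csg: (MP_70a088_an, CLASS S), row SPQ: near critical points are quadratic (helper13)
-/

set_option autoImplicit false

open Complex Metric Set Filter Topology MeasureTheory
open Pool.Agent.helper98.ILF
open HY (UD T S hd UN RM)
open PM (DD rm cx pd cr hdf LP DP)
open CSS (SE SV it JJ IB)
open PL (INR PG DK ht tr DI CY hG hq)

noncomputable section

namespace P2S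

/-- the quadratic lower bound near a simple critical point of the limit. -/
theorem SPQ_low (U : Filter ℕ) [U.NeBot] (F : ℕ → ℂ → ℂ) (g : ℂ → ℂ) (ζ₀ : ℂ) (r : ℝ) (hr : 0 < r)
    (hF : ∀ᶠ j in U, DifferentiableOn ℂ (F j) (ball ζ₀ r))
    (hD : TendstoLocallyUniformlyOn (fun j => deriv (F j)) g U (ball ζ₀ r))
    (hg : deriv g ζ₀ ≠ 0) (ξ ζ : ℕ → ℂ) (hξ : Tendsto ξ U (𝓝 ζ₀)) (hζ : Tendsto ζ U (𝓝 ζ₀))
    (h0 : ∀ᶠ j in U, deriv (F j) (ξ j) = 0) :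
    ∀ᶠ j in U, ‖deriv g ζ₀‖ / 4 * ‖ζ j - ξ j‖ ^ 2 ≤ ‖F j (ζ j) - F j (ξ j)‖ := by
  have hA : 0 < ‖deriv g ζ₀‖ := norm_pos_iff.2 hg
  set a : ℂ := deriv g ζ₀ with ha
  have hFd : ∀ᶠ j in U, DifferentiableOn ℂ (deriv (F j)) (ball ζ₀ r) := by
    filter_upwards [hF] with j hj
    exact hj.deriv isOpen_ball
  have hgd : DifferentiableOn ℂ g (ball ζ₀ r) := hD.differentiableOn hFd isOpen_ball
  have hD2 : TendstoLocallyUniformlyOn (deriv ∘ fun j => deriv (F j)) (deriv g) U (ball ζ₀ r) :=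
    hD.deriv hFd isOpen_ball
  have hgc : ContinuousAt (deriv g) ζ₀ :=
    (hgd.deriv isOpen_ball).continuousOn.continuousAt (ball_mem_nhds ζ₀ hr)
  obtain ⟨r₁, hr₁, hr₁'⟩ := Metric.continuousAt_iff.1 hgc (‖a‖ / 8) (by positivity)
  obtain ⟨r₂, hr₂, hr₂1, hr₂r⟩ : ∃ r₂ : ℝ, 0 < r₂ ∧ r₂ < r₁ ∧ r₂ < r :=
    ⟨min r₁ r / 2, by positivity, by
      have := min_le_left r₁ r
      linarith, by
      have := min_le_right r₁ r
      linarith⟩
  have hunif : TendstoUniformlyOn (deriv ∘ fun j => deriv (F j)) (deriv g) U (closedBall ζ₀ r₂) :=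
    (tendstoLocallyUniformlyOn_iff_forall_isCompact isOpen_ball).1 hD2 _ (closedBall_subset_ball hr₂r)
      (isCompact_closedBall _ _)
  filter_upwards [hF, hFd, Metric.tendstoUniformlyOn_iff.1 hunif (‖a‖ / 8) (by positivity), hξ.eventually (ball_mem_nhds ζ₀ hr₂),
    hζ.eventually (ball_mem_nhds ζ₀ hr₂), h0] with j e1 e2 e3 e4 e5 e6
  have hsub : ball ζ₀ r₂ ⊆ ball ζ₀ r := ball_subset_ball hr₂r.le
  have hb : ∀ z ∈ ball ζ₀ r₂, ‖deriv (deriv (F j)) z - a‖ ≤ ‖a‖ / 4 := by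
    intro z hz
    have f1 := e3 z (ball_subset_closedBall hz)
    have f2 := hr₁' (lt_trans (mem_ball.1 hz) hr₂1)
    rw [dist_eq_norm] at f1 f2
    have f3 : deriv (deriv (F j)) z - a = -(deriv g z - (deriv ∘ fun j => deriv (F j)) j z) + (deriv g z - deriv g ζ₀) := by
      show deriv (deriv (F j)) z - a = -(deriv g z - deriv (deriv (F j)) z) + (deriv g z - deriv g ζ₀)
      rw [ha]
      ring
    rw [f3]
    refine (norm_add_le _ _).trans ?_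
    rw [norm_neg]
    linarith
  have hd1 : ∀ z ∈ ball ζ₀ r₂, HasDerivWithinAt (fun z => deriv (F j) z - a * (z - ξ j)) (deriv (deriv (F j)) z - a) (ball ζ₀ r₂) z := by
    intro z hz
    have f1 : HasDerivAt (deriv (F j)) (deriv (deriv (F j)) z) z :=
      (e2.differentiableAt (isOpen_ball.mem_nhds (hsub hz))).hasDerivAt
    have f2 : HasDerivAt (fun z => a * (z - ξ j)) a z := by
      simpa using ((hasDerivAt_id z).sub_const (ξ j)).const_mul a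
    exact (f1.sub f2).hasDerivWithinAt
  have hb1 : ∀ z ∈ ball ζ₀ r₂, ‖deriv (F j) z - a * (z - ξ j)‖ ≤ ‖a‖ / 4 * ‖z - ξ j‖ := by
    intro z hz
    have f1 := (convex_ball ζ₀ r₂).norm_image_sub_le_of_norm_hasDerivWithin_le hd1 hb e4 hz
    simp only [e6, sub_self, mul_zero, sub_zero] at f1
    exact f1
  set s : Set ℂ := ball ζ₀ r₂ ∩ closedBall (ξ j) ‖ζ j - ξ j‖ with hs
  have hd2 : ∀ z ∈ s, HasDerivWithinAt (fun z => F j z - a / 2 * (z - ξ j) ^ 2) (deriv (F j) z - a * (z - ξ j)) s z := by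
    intro z hz
    have f1 : HasDerivAt (F j) (deriv (F j) z) z :=
      (e1.differentiableAt (isOpen_ball.mem_nhds (hsub hz.1))).hasDerivAt
    have f2 : HasDerivAt (fun z => a / 2 * (z - ξ j) ^ 2) (a * (z - ξ j)) z := by
      have f3 := (((hasDerivAt_id z).sub_const (ξ j)).pow 2).const_mul (a / 2)
      have f6 : a * (z - ξ j) = a / 2 * (((2 : ℕ) : ℂ) * (z - ξ j) ^ (2 - 1) * 1) := by
        push_cast
        ring
      rw [f6]
      exact f3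
    exact (f1.sub f2).hasDerivWithinAt
  have hb2 : ∀ z ∈ s, ‖deriv (F j) z - a * (z - ξ j)‖ ≤ ‖a‖ / 4 * ‖ζ j - ξ j‖ := by
    intro z hz
    refine (hb1 z hz.1).trans (mul_le_mul_of_nonneg_left ?_ (by positivity))
    have := mem_closedBall.1 hz.2
    rwa [dist_eq_norm] at this
  have hcs : Convex ℝ s := (convex_ball ζ₀ r₂).inter (convex_closedBall _ _)
  have hxs : ξ j ∈ s := ⟨e4, mem_closedBall_self (norm_nonneg _)⟩
  have hzs : ζ j ∈ s := ⟨e5, by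
    rw [mem_closedBall, dist_eq_norm]⟩
  have f4 := hcs.norm_image_sub_le_of_norm_hasDerivWithin_le hd2 hb2 hxs hzs
  simp only [sub_self, ne_eq, OfNat.ofNat_ne_zero, not_false_eq_true, zero_pow, mul_zero, sub_zero] at f4
  have f5 : ‖a / 2 * (ζ j - ξ j) ^ 2‖ ≤ ‖F j (ζ j) - F j (ξ j)‖ + ‖F j (ζ j) - a / 2 * (ζ j - ξ j) ^ 2 - F j (ξ j)‖ := by
    have f6 : a / 2 * (ζ j - ξ j) ^ 2 = (F j (ζ j) - F j (ξ j)) - (F j (ζ j) - a / 2 * (ζ j - ξ j) ^ 2 - F j (ξ j)) := by ring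
    conv_lhs => rw [f6]
    exact norm_sub_le _ _
  have f7 : ‖a / 2 * (ζ j - ξ j) ^ 2‖ = ‖a‖ / 2 * ‖ζ j - ξ j‖ ^ 2 := by
    rw [norm_mul, norm_pow, norm_div]
    norm_num
  rw [f7] at f5
  have f8 : ‖a‖ / 4 * ‖ζ j - ξ j‖ * ‖ζ j - ξ j‖ = ‖a‖ / 4 * ‖ζ j - ξ j‖ ^ 2 := by ring
  rw [f8] at f4
  linarith

/-- pseudo hyperbolic and Euclidean distance. -/
theorem SPQ_T (u v : ℂ) (hu : ‖u‖ < 1) (hv : ‖v‖ < 1) : ‖u - v‖ / 2 ≤ ‖T u v‖ := by
  unfold T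
  rw [norm_div, norm_sub_rev v u]
  have h1 : ‖1 - (starRingEnd ℂ) u * v‖ ≤ 2 := by
    refine (norm_sub_le _ _).trans ?_
    rw [norm_one, norm_mul, RCLike.norm_conj]
    have := norm_nonneg u
    have := norm_nonneg v
    nlinarith
  have h2 : 0 < ‖1 - (starRingEnd ℂ) u * v‖ := by
    rw [norm_pos_iff]
    intro h3
    have h4 : (starRingEnd ℂ) u * v = 1 := by linear_combination -h3
    have h5 : ‖(starRingEnd ℂ) u * v‖ = 1 := by rw [h4, norm_one]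
    rw [norm_mul, RCLike.norm_conj] at h5
    have := norm_nonneg u
    have := norm_nonneg v
    nlinarith
  exact div_le_div_of_nonneg_left (norm_nonneg _) h2 h1

theorem SPQ (hFRX : FRX_stmt) (hFRS : FRS_stmt) (hTLX : TLX_stmt) (hTLS : TLS_stmt) (hPTC : PTC_stmt)
    (hDIC : DIC_stmt) (hCR2 : CR2_stmt) (hTDF : PM.TDF_stmt) (hTPM : PM.TPM_stmt) (hTPT : PM.TPT_stmt)
    (hTKO : PM.TKO_stmt) (hVKF : VKF_stmt) (hVCF : VCF_stmt) : SPQ_stmt := by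
  intro f V hST μ x₀ hTP P hC a ha
  by_contra hcon
  push Not at hcon
  -- the sequences
  have hcon' : ∀ i : ℕ, ∃ (k : ℕ) (y : ℂ) (n s : ℕ) (p q : ℂ), i ≤ k ∧ P k y (n + s) ∧ LO f V y a n s ∧ p ∈ VC f V (n + s) y ∧
      pd (VC f V (n + s) y) y p ≤ 3 / 4 ∧ q ∈ VC f V (n + s) y ∧
      deriv (it f s) q = 0 ∧ pd (VC f V (n + s) y) p q < 1 / ((i : ℝ) + 11) ∧
      pd (VC f V n (it f s y)) (it f s p) (it f s q) < 1 / ((i : ℝ) + 11) * pd (VC f V (n + s) y) p q ^ 2 := by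
    intro i
    have hi0 : (0 : ℝ) ≤ i := Nat.cast_nonneg i
    obtain ⟨k, hk, y, n, s, hyf, h2, p, h3, h4, q, h5, h6, h7, h8⟩ := hcon (1 / ((i : ℝ) + 11)) (by positivity)
      (by
        rw [div_le_one (by positivity)]
        linarith) i
    exact ⟨k, y, n, s, p, q, hk, hyf, h2, h3, h4, h5, h6, h7, h8⟩
  choose k x n s p q hk hP h2 h3 h4 h5 h7 h9 h10 using hcon'
  have hx : ∀ j, x j ∈ JK f V := fun j => hC.J _ _ _ (hP j)
  have h1 : ∀ i, i ≤ n i + s i := fun i => (hk i).trans (hC.le _ _ _ (hP i))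
  -- the frame
  set U : Ultrafilter ℕ := hyperfilter ℕ with hU
  have hUle : (U : Filter ℕ) ≤ atTop := Nat.hyperfilter_le_atTop
  set H : ℕ → ℕ := fun j => n j + s j with hH
  have hHt : Tendsto H U atTop := by
    have h12 : Tendsto H atTop atTop := tendsto_atTop_mono h1 tendsto_id
    exact h12.mono_left hUle
  obtain ⟨B, hB⟩ := hC.bd
  obtain ⟨χ, hχ⟩ := hFRX f V hST x hx U hUle ⟨B, Eventually.of_forall fun j => hB _ _ _ (hP j)⟩ H hHt
  have hsub : ∀ j, H j - s j = n j := fun j => Nat.add_sub_cancel (n j) (s j)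
  obtain ⟨G, hTG⟩ := hTLX f V hST x hx U H χ hχ s
    (Eventually.of_forall fun j => Nat.le_add_left (s j) (n j))
  obtain ⟨hGd, -, hGm, hGder, hGlo, -⟩ := hTLS f V hST x hx U H χ hχ s G hTG
  obtain ⟨z₁, hz₁, -, hz₁a⟩ := hGlo a ha (Eventually.of_forall fun j => by
    rw [hsub]
    exact h2 j)
  have hnc : ∃ z ∈ χ '' UD, deriv G z ≠ 0 := by
    refine ⟨z₁, hz₁, fun h0 => ?_⟩
    unfold hG at hz₁a
    rw [h0, norm_zero, zero_mul, zero_div] at hz₁a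
    linarith
  -- the domains
  obtain ⟨-, -, -, -, hVK, -⟩ := hVKF f V hST
  have hxV : ∀ j k, (x j) ∈ VK f V k := fun j => hST.Jv (x j) (hx j)
  have hW := fun j => hVCF f V hST (H j) (x j) (hxV _ _)
  have hyV : ∀ j, it f (s j) (x j) ∈ VK f V (n j) := fun j => (hVK (n j) (s j) (x j)).1 (hxV _ _)
  have hV := fun j => hVCF f V hST (n j) (it f (s j) (x j)) (hyV j)
  have hmap : ∀ j, MapsTo (it f (s j)) (VC f V (H j) (x j)) (VC f V (n j) (it f (s j) (x j))) := by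
    intro j
    have h12 := (hW j).2.2.2.2.2.2.1 (s j) (Nat.le_add_left (s j) (n j))
    rwa [hsub] at h12
  have hσ : ∀ j, 0 < cr (VC f V (H j) (x j)) (x j) := fun j => ((hTDF _ (hW j).1).2.2 (x j) (hW j).2.1).2.1
  obtain ⟨hRM, hDD, hcr1, hΩo, h0Ω, hcr0, hfill, -⟩ := hFRS f V hST x hx U H χ hχ
  -- the points `p`, `q`
  obtain ⟨ζ, ζ₀, hζ₀, -, hζt, hζe⟩ := hPTC f V hST x hx U H χ hχ (3 / 4) (by norm_num) p
    (Eventually.of_forall fun j => ⟨h3 j, h4 j⟩)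
  have hlim0 : Tendsto (fun j : ℕ => 1 / ((j : ℝ) + 11)) U (𝓝 0) := by
    have h12 : Tendsto (fun j : ℕ => (j : ℝ) + 11) atTop atTop :=
      tendsto_atTop_add_const_right _ _ tendsto_natCast_atTop_atTop
    have h13 : Tendsto (fun j : ℕ => 1 / ((j : ℝ) + 11)) atTop (𝓝 0) :=
      tendsto_const_nhds.div_atTop h12
    exact h13.mono_left hUle
  have h12 : ∀ j, pd (VC f V (H j) (x j)) (x j) (q j) ≤ 9 / 10 := by
    intro j
    have h13 := (hTPT _ (hW j).1 (x j) (hW j).2.1 (p j) (h3 j) (q j) (h5 j)).2.1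
    have h14 := h4 j
    have h15 := h9 j
    have h16 : 1 / ((j : ℝ) + 11) ≤ 1 / 11 := by
      apply one_div_le_one_div_of_le (by norm_num)
      have : (0 : ℝ) ≤ j := Nat.cast_nonneg j
      linarith
    have h17 : pd (VC f V (H j) (x j)) (x j) (p j) ≤ 3 / 4 := h14
    have h18 : pd (VC f V (H j) (x j)) (p j) (q j) < 1 / ((j : ℝ) + 11) := h15
    linarith
  obtain ⟨ξ, ξ₀, hξ₀, -, hξt, hξe⟩ := hPTC f V hST x hx U H χ hχ (9 / 10) (by norm_num) q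
    (Eventually.of_forall fun j => ⟨h5 j, h12 j⟩)
  have hξt : Tendsto ξ U (𝓝 ζ₀) := by
    obtain ⟨-, -, -, -, hpd⟩ := hDIC f V hST x hx U H χ hχ s G hTG ζ ζ₀ hζ₀ hζt
    have h13 := hpd ξ ξ₀ hξ₀ hξt
    have h14 : pd (χ '' UD) ζ₀ ξ₀ ≤ 0 := by
      refine le_of_tendsto_of_tendsto h13 hlim0 ?_
      filter_upwards [hζe, hξe] with j hj hj'
      rw [← hj, ← hj']
      exact (h9 j).le
    obtain ⟨-, -, hall⟩ := hTDF _ hDD
    obtain ⟨-, -, -, -, -, hcb, -⟩ := hall ζ₀ hζ₀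
    obtain ⟨-, -, -, -, h15, h16⟩ := hcb ξ₀ hξ₀
    have h17 : ξ₀ = ζ₀ := h16 (le_antisymm h14 h15)
    rwa [h17] at hξt
  -- the derivative of `GJ`
  have hGJ : ∀ j z, PZ f V (x j) (H j) z ∈ VC f V (H j) (x j) → HasDerivAt (GJ f V (x j) (H j) (s j))
      (deriv (cx (VC f V (n j) (it f (s j) (x j))) (it f (s j) (x j))) (it f (s j) (PZ f V (x j) (H j) z)) *
        (deriv (it f (s j)) (PZ f V (x j) (H j) z) * (cr (VC f V (H j) (x j)) (x j) : ℂ))) z := by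
    intro j z hz
    have h12 := PL.SPC_der hTDF hTPM (VC f V (H j) (x j)) (VC f V (n j) (it f (s j) (x j))) (hV j).1 (it f (s j))
      (SPA_itd f (s j)) (hmap j) (x j) (it f (s j) (x j)) (hV j).2.1 (cr (VC f V (H j) (x j)) (x j) : ℂ) z hz
    have h13 : GJ f V (x j) (H j) (s j) = fun ζ => cx (VC f V (n j) (it f (s j) (x j))) (it f (s j) (x j))
        (it f (s j) ((x j) + (cr (VC f V (H j) (x j)) (x j) : ℂ) * ζ)) := by
      funext ζ
      unfold GJ PZ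
      rw [hsub]
    rw [h13]
    exact h12
  -- a ball
  obtain ⟨r, hr, hrs⟩ : ∃ r > (0 : ℝ), closedBall ζ₀ r ⊆ χ '' UD := by
    obtain ⟨r, hr, h12⟩ := Metric.isOpen_iff.1 hΩo ζ₀ hζ₀
    exact ⟨r / 2, by positivity, (closedBall_subset_ball (by linarith)).trans h12⟩
  have hfill1 := hfill (closedBall ζ₀ r) hrs (isCompact_closedBall _ _)
  have hF1 : ∀ᶠ j in (U : Filter ℕ), DifferentiableOn ℂ (GJ f V (x j) (H j) (s j)) (ball ζ₀ r) := by
    filter_upwards [hfill1] with j hj z hz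
    exact (hGJ j z (hj z (ball_subset_closedBall hz))).differentiableAt.differentiableWithinAt
  have hz : ∀ᶠ j in (U : Filter ℕ), deriv (GJ f V (x j) (H j) (s j)) (ξ j) = 0 := by
    filter_upwards [hfill1, hξe, hξt.eventually (closedBall_mem_nhds ζ₀ hr)] with j hj hj' hj''
    rw [(hGJ j (ξ j) (hj _ hj'')).deriv, ← hj', h7 j, zero_mul, mul_zero]
  have hDlu : TendstoLocallyUniformlyOn (fun j => deriv (GJ f V (x j) (H j) (s j))) (deriv G) U (ball ζ₀ r) :=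
    hGder.mono (ball_subset_closedBall.trans hrs)
  -- the limit is critical at `ζ₀`
  have hder0 : deriv G ζ₀ = 0 := by
    have h13 : ContinuousWithinAt (deriv G) (ball ζ₀ r) ζ₀ := by
      have h14 : DifferentiableOn ℂ (deriv G) (χ '' UD) := hGd.deriv hΩo
      exact (h14.continuousOn.mono (ball_subset_closedBall.trans hrs)) ζ₀ (mem_ball_self hr)
    have h15 : Tendsto ξ U (𝓝[ball ζ₀ r] ζ₀) :=
      tendsto_nhdsWithin_iff.2 ⟨hξt, hξt.eventually (ball_mem_nhds ζ₀ hr)⟩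
    have h16 : Tendsto (fun j => deriv (GJ f V (x j) (H j) (s j)) (ξ j)) U (𝓝 (deriv G ζ₀)) :=
      hDlu.tendsto_comp h13 (mem_ball_self hr) h15
    exact tendsto_nhds_unique (h16.congr' hz) tendsto_const_nhds
  have hder2 := hCR2 f V hST μ x₀ hTP x hx U H χ hχ (hC.fl U k H x hUle ((tendsto_atTop_mono hk tendsto_id).mono_left hUle) (Eventually.of_forall hP)) s G hTG hnc ζ₀ hζ₀ hder0
  have hlow := SPQ_low (U : Filter ℕ) (fun j => GJ f V (x j) (H j) (s j)) (deriv G) ζ₀ r hr hF1 hDlu hder2 ξ ζ hξt hζt hz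
  -- Koebe
  obtain ⟨K, hK1, hK, -⟩ := hTKO
  have hK0 : 0 < K := by linarith
  have hA : 0 < ‖deriv (deriv G) ζ₀‖ := norm_pos_iff.2 hder2
  have hdist : Tendsto (fun j => ‖ξ j - ζ j‖) U (𝓝 0) := by
    have h9 := (hξt.sub hζt).norm
    rwa [sub_self, norm_zero] at h9
  have hev1 : ∀ᶠ j in (U : Filter ℕ), ‖ξ j - ζ j‖ < r / (2 * K) := hdist.eventually_lt_const (by positivity)
  have hev2 : ∀ᶠ j in (U : Filter ℕ), ζ j ∈ ball ζ₀ (r / 2) := hζt.eventually (ball_mem_nhds ζ₀ (by positivity))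
  have hev3 : ∀ᶠ j : ℕ in (U : Filter ℕ), 1 / ((j : ℝ) + 11) < ‖deriv (deriv G) ζ₀‖ / 8 * (r / (2 * K)) ^ 2 :=
    hlim0.eventually_lt_const (by positivity)
  obtain ⟨j, hj1, hj2, hj3, hj4, hj5, hj6, hj7⟩ := (hfill1.and (hlow.and (hev1.and (hev2.and (hev3.and (hζe.and hξe)))))).exists
  set σ : ℝ := cr (VC f V (H j) (x j)) (x j) with hσdef
  have hσ0 : 0 < σ := hσ j
  have hσc : (σ : ℂ) ≠ 0 := by exact_mod_cast hσ0.ne'
  -- the ball about `p` in the plane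
  have hpW : p j ∈ VC f V (H j) (x j) := h3 j
  have hqW : q j ∈ VC f V (H j) (x j) := h5 j
  have hball : ball (p j) (σ * (r / 2)) ⊆ VC f V (H j) (x j) := by
    intro y hy
    have h9 : PZ f V (x j) (H j) ((y - x j) / (σ : ℂ)) = y := by
      unfold PZ
      rw [← hσdef, mul_div_cancel₀ _ hσc]
      ring
    rw [← h9]
    apply hj1
    rw [mem_closedBall]
    have h10 : dist ((y - x j) / (σ : ℂ)) (ζ j) ≤ r / 2 := by
      have h11 : (y - x j) / (σ : ℂ) - ζ j = (y - p j) / (σ : ℂ) := by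
        rw [hj6]
        unfold PZ
        rw [← hσdef]
        field_simp
        ring
      rw [dist_eq_norm, h11, norm_div, Complex.norm_real, Real.norm_of_nonneg hσ0.le, div_le_iff₀ hσ0]
      rw [mem_ball, dist_eq_norm] at hy
      linarith
    have h12 : dist (ζ j) ζ₀ ≤ r / 2 := (mem_ball.1 hj4).le
    linarith [dist_triangle ((y - x j) / (σ : ℂ)) (ζ j) ζ₀]
  obtain ⟨-, hKb, hKd⟩ := hK _ (hW j).1 (p j) hpW
  have hcrp : σ * (r / 2) ≤ cr (VC f V (H j) (x j)) (p j) := hKb _ hball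
  have hcrp0 : 0 < cr (VC f V (H j) (x j)) (p j) := by
    have : 0 < σ * (r / 2) := by positivity
    linarith
  have hdq : ‖q j - p j‖ = σ * ‖ξ j - ζ j‖ := by
    have h9 : q j - p j = (σ : ℂ) * (ξ j - ζ j) := by
      rw [hj6, hj7]
      unfold PZ
      ring
    rw [h9, norm_mul, Complex.norm_real, Real.norm_of_nonneg hσ0.le]
  have hpdq : pd (VC f V (H j) (x j)) (p j) (q j) ≤ 2 * K / r * ‖ξ j - ζ j‖ := by
    have h9 : ‖q j - p j‖ < cr (VC f V (H j) (x j)) (p j) / K := by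
      rw [hdq, lt_div_iff₀ hK0]
      have h10 : ‖ξ j - ζ j‖ * K < r / 2 := by
        rw [lt_div_iff₀ (by positivity)] at hj3
        linarith
      have h11 : σ * (‖ξ j - ζ j‖ * K) < σ * (r / 2) := mul_lt_mul_of_pos_left h10 hσ0
      linarith
    refine (hKd _ h9).2.trans ?_
    rw [hdq, div_le_iff₀ hcrp0]
    have h10 : 0 ≤ 2 * K / r * ‖ξ j - ζ j‖ := by positivity
    calc K * (σ * ‖ξ j - ζ j‖) = 2 * K / r * ‖ξ j - ζ j‖ * (σ * (r / 2)) := by field_simp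
      _ ≤ 2 * K / r * ‖ξ j - ζ j‖ * cr (VC f V (H j) (x j)) (p j) := mul_le_mul_of_nonneg_left hcrp h10
  -- the images
  have e1 : GJ f V (x j) (H j) (s j) (ζ j) = cx (VC f V (n j) (it f (s j) (x j))) (it f (s j) (x j)) (it f (s j) (p j)) := by
    unfold GJ
    rw [← hj6, hsub]
  have e2 : GJ f V (x j) (H j) (s j) (ξ j) = cx (VC f V (n j) (it f (s j) (x j))) (it f (s j) (x j)) (it f (s j) (q j)) := by
    unfold GJ
    rw [← hj7, hsub]
  have hcU : ∀ y ∈ VC f V (n j) (it f (s j) (x j)), ‖cx (VC f V (n j) (it f (s j) (x j))) (it f (s j) (x j)) y‖ < 1 := by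
    intro y hy
    obtain ⟨-, -, hall⟩ := hTDF _ (hV j).1
    obtain ⟨-, -, -, -, -, hcb, -⟩ := hall _ (hV j).2.1
    have h13 := (hcb y hy).1
    rwa [UD, mem_ball_zero_iff] at h13
  have e3 := (hTPT _ (hV j).1 _ (hV j).2.1 _ (hmap j hpW) _ (hmap j hqW)).2.2.2.2
  have e4 := SPQ_T _ _ (hcU _ (hmap j hpW)) (hcU _ (hmap j hqW))
  rw [← e3, ← e1, ← e2] at e4
  have e5 := h10 j
  have e6 : pd (VC f V (n j + s j) (x j)) (p j) (q j) ≤ 2 * K / r * ‖ξ j - ζ j‖ := hpdq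
  have e7 : 0 ≤ pd (VC f V (n j + s j) (x j)) (p j) (q j) := by
    obtain ⟨-, -, hall⟩ := hTDF _ (hW j).1
    obtain ⟨-, -, -, -, -, hcb, -⟩ := hall (p j) hpW
    exact (hcb (q j) hqW).2.2.2.2.1
  have hj2' : ‖deriv (deriv G) ζ₀‖ / 4 * ‖ζ j - ξ j‖ ^ 2 ≤ ‖GJ f V (x j) (H j) (s j) (ζ j) - GJ f V (x j) (H j) (s j) (ξ j)‖ := hj2
  rw [norm_sub_rev (ζ j) (ξ j)] at hj2'
  set D : ℝ := pd (VC f V (n j + s j) (x j)) (p j) (q j) with hDdef
  have e8 : D * (r / (2 * K)) ≤ ‖ξ j - ζ j‖ := by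
    have h13 : 2 * K / r * ‖ξ j - ζ j‖ * (r / (2 * K)) = ‖ξ j - ζ j‖ := by field_simp
    calc D * (r / (2 * K)) ≤ 2 * K / r * ‖ξ j - ζ j‖ * (r / (2 * K)) := mul_le_mul_of_nonneg_right e6 (by positivity)
      _ = ‖ξ j - ζ j‖ := h13
  have e9 : (D * (r / (2 * K))) ^ 2 ≤ ‖ξ j - ζ j‖ ^ 2 := pow_le_pow_left₀ (by positivity) e8 2
  have e10 : ‖deriv (deriv G) ζ₀‖ / 8 * (D * (r / (2 * K))) ^ 2 ≤ ‖deriv (deriv G) ζ₀‖ / 8 * ‖ξ j - ζ j‖ ^ 2 :=
    mul_le_mul_of_nonneg_left e9 (by positivity)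
  have e11 : 1 / ((j : ℝ) + 11) * D ^ 2 ≤ ‖deriv (deriv G) ζ₀‖ / 8 * (r / (2 * K)) ^ 2 * D ^ 2 :=
    mul_le_mul_of_nonneg_right hj5.le (sq_nonneg D)
  have e12 : ‖deriv (deriv G) ζ₀‖ / 8 * (D * (r / (2 * K))) ^ 2 = ‖deriv (deriv G) ζ₀‖ / 8 * (r / (2 * K)) ^ 2 * D ^ 2 := by ring
  linarith

end P2S
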